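import Pool.Agent.Q93.LT.Roots
import Pool.Agent.Q235.FD.Cen

/-! Many primes modulo which a polynomial with few-digit coefficients is separable and has a root. -/

set_option autoImplicit false

namespace Pool.Agent.Q93.LT

open Finset Filter Polynomial Pool.Agent.Q235.FD Topology

/-- the primes from `4 n` to `x` -/
def PX (n x : ℕ) : Finset ℕ := (range (x + 1)).filter (fun p => p.Prime ∧ 4 * n ≤ p)

lemma mem_PX {n x p : ℕ} : p ∈ PX n x ↔ p.Prime ∧ p ≤ x ∧ 4 * n ≤ p := by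
  unfold PX
  rw [mem_filter, mem_range]
  constructor
  · rintro ⟨h1, h2, h3⟩; exact ⟨h2, by omega, h3⟩
  · rintro ⟨h1, h2, h3⟩; exact ⟨by omega, h1, h3⟩

/-- the family consisting of this set -/
def theta (n : ℕ) : Sets 0 where
  S := fun x => {PX n x}
  card := by intro x; simp
  prime := by
    intro x P hP p hp
    rw [mem_singleton] at hP
    rw [hP, mem_PX] at hp
    exact ⟨hp.1, hp.2.1⟩

lemma proportion_le_one {L : Type} [Fintype L] {p : ℕ} (hp : p.Prime) (T : (L → ℕ) → Prop) : proportion p T ≤ 1 := by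
  classical
  unfold proportion
  have hp0 : (0 : ℝ) < (p : ℝ) ^ Fintype.card L := by
    have : (0 : ℝ) < p := by exact_mod_cast hp.pos
    positivity
  rw [div_le_one hp0]
  have h1 := card_filter_le (Fintype.piFinset (fun _ : L => range p)) T
  have h2 : (Fintype.piFinset (fun _ : L => range p)).card = p ^ Fintype.card L := by
    rw [Fintype.card_piFinset]
    simp
  rw [h2] at h1
  refine le_trans (le_of_eq ?_) (show (((Fintype.piFinset (fun _ : L => range p)).filter T).card : ℝ) ≤ (p : ℝ) ^ Fintype.card L by exact_mod_cast h1)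
  congr!

lemma pi_lower : ∀ᶠ x : ℕ in atTop, (x : ℝ) / (2 * Real.log x) ≤ (((range (x + 1)).filter Nat.Prime).card : ℝ) := by
  have h1 : ∀ᶠ x : ℝ in atTop, Real.log x ≤ (1 / 20) * x := by
    have := Real.isLittleO_log_id_atTop.bound (show (0 : ℝ) < 1 / 20 by norm_num)
    filter_upwards [this, eventually_ge_atTop (1 : ℝ)] with x hx hx1
    simp only [id, Real.norm_eq_abs] at hx
    rw [abs_of_nonneg (by linarith : (0 : ℝ) ≤ x)] at hx
    exact (le_abs_self _).trans hx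
  have h2 : Tendsto (fun x : ℕ => (x : ℝ) + 1) atTop atTop :=
    tendsto_natCast_atTop_atTop.atTop_add tendsto_const_nhds
  filter_upwards [h2.eventually h1, eventually_ge_atTop 3] with x hx hx3
  have hx3' : (3 : ℝ) ≤ x := by exact_mod_cast hx3
  have h0 : (Nat.primeCounting x : ℝ) = (((range (x + 1)).filter Nat.Prime).card : ℝ) := by
    rw [Nat.primeCounting, Nat.primeCounting', Nat.count_eq_card_filter_range]
  rw [← h0]
  refine le_trans ?_ (Chebyshev.pi_ge x)
  have hlog : 0 < Real.log x := Real.log_pos (by linarith)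
  have h3 : (x : ℝ) / (2 * Real.log x) = (x / 2) / Real.log x := by
    field_simp
  rw [h3]
  apply div_le_div_of_nonneg_right _ hlog.le
  have := Real.log_two_gt_d9
  nlinarith

lemma card_PX (n x : ℕ) : (((range (x + 1)).filter Nat.Prime).card : ℝ) ≤ (PX n x).card + 4 * n := by
  have h1 : (range (x + 1)).filter Nat.Prime ⊆ PX n x ∪ range (4 * n) := by
    intro p hp
    rw [mem_filter, mem_range] at hp
    rw [mem_union, mem_PX, mem_range]
    by_cases h : 4 * n ≤ p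
    · left; exact ⟨hp.2, by omega, h⟩
    · right; omega
  have h2 := (card_le_card h1).trans (card_union_le _ _)
  rw [card_range] at h2
  exact_mod_cast h2

lemma card_PX_le (n x : ℕ) : ((PX n x).card : ℝ) ≤ x := by
  have h : PX n x ⊆ Icc 1 x := by
    intro p hp
    rw [mem_PX] at hp
    rw [mem_Icc]
    exact ⟨hp.1.one_lt.le, hp.2.1⟩
  have := card_le_card h
  rw [Nat.card_Icc, Nat.add_sub_cancel] at this
  exact_mod_cast this

lemma big (n : ℕ) : ∀ᶠ x : ℕ in atTop, (n : ℝ) + (x : ℝ) ^ (3 / 4 : ℝ) ≤ x / (16 * Real.log x) := by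
  have h1 : ∀ᶠ x : ℝ in atTop, Real.log x ≤ (1 / 32) * x ^ (1 / 8 : ℝ) := by
    have := (isLittleO_log_rpow_atTop (show (0 : ℝ) < 1 / 8 by norm_num)).bound (show (0 : ℝ) < 1 / 32 by norm_num)
    filter_upwards [this, eventually_ge_atTop (1 : ℝ)] with x hx hx1
    simp only [Real.norm_eq_abs] at hx
    rw [abs_of_nonneg (by positivity : (0 : ℝ) ≤ x ^ (1 / 8 : ℝ))] at hx
    exact (le_abs_self _).trans hx
  filter_upwards [tendsto_natCast_atTop_atTop.eventually h1, eventually_ge_atTop (n ^ 2 + 3)] with x hx hxn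
  have hx3 : (3 : ℝ) ≤ x := by exact_mod_cast (by omega : 3 ≤ x)
  have hx0 : (0 : ℝ) < x := by linarith
  have hlog : 0 < Real.log x := Real.log_pos (by linarith)
  have hn : (n : ℝ) ≤ (x : ℝ) ^ (3 / 4 : ℝ) := by
    have h2 : (n : ℝ) ^ 2 ≤ x := by exact_mod_cast (by omega : n ^ 2 ≤ x)
    have h3 : (n : ℝ) ≤ (x : ℝ) ^ (1 / 2 : ℝ) := by
      rw [← Real.sqrt_eq_rpow]
      exact Real.le_sqrt_of_sq_le h2
    exact h3.trans (Real.rpow_le_rpow_of_exponent_le (by linarith) (by norm_num))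
  have h4 : (x : ℝ) ^ (3 / 4 : ℝ) ≤ (x : ℝ) ^ (7 / 8 : ℝ) := Real.rpow_le_rpow_of_exponent_le (by linarith) (by norm_num)
  have h5 : 2 * (x : ℝ) ^ (7 / 8 : ℝ) ≤ x / (16 * Real.log x) := by
    rw [le_div_iff₀ (by positivity)]
    have h6 : (x : ℝ) ^ (7 / 8 : ℝ) * (x : ℝ) ^ (1 / 8 : ℝ) = x := by
      rw [← Real.rpow_add hx0]
      norm_num
    have h7 : 0 ≤ (x : ℝ) ^ (7 / 8 : ℝ) := by positivity
    calc 2 * (x : ℝ) ^ (7 / 8 : ℝ) * (16 * Real.log x) = 32 * (x : ℝ) ^ (7 / 8 : ℝ) * Real.log x := by ring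
      _ ≤ 32 * (x : ℝ) ^ (7 / 8 : ℝ) * ((1 / 32) * x ^ (1 / 8 : ℝ)) := mul_le_mul_of_nonneg_left hx (by positivity)
      _ = (x : ℝ) ^ (7 / 8 : ℝ) * (x : ℝ) ^ (1 / 8 : ℝ) := by ring
      _ = x := h6
  linarith

/-- many primes -/
theorem many_roots (n : ℕ) (hn : 2 ≤ n) {b : ℕ} (hb : 2 ≤ b) (A : ℕ) :
    ForAlmostAll (Fin n) b A (fun (_ : Unit) x m => (x : ℝ) / (16 * Real.log x) ≤ number (PX n x) (fun p => Rt p m)) := by
  classical
  have : Nonempty (Fin n) := ⟨⟨0, by omega⟩⟩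
  obtain ⟨y₁, hy₁⟩ := eventually_atTop.1 (pi_lower.and (big n))
  refine forAlmostAll_of hb (show (0 : ℝ) < 1 / 4 by norm_num) (A₂ := 0 + 0) (fun _ : Unit => propData (theta n) (fun _ => (univ : Finset Unit))
    (by intro x hx; simp) (fun _ p m => Rt p m) (fun _ p m => Rt_mod p m)) (y₁ + 2) ?_
  intro _ x m hx h
  obtain ⟨h1, h2⟩ := hy₁ x (by omega)
  have h3 := law_prop (theta n) _ _ _ _ h (PX n x) (by show PX n x ∈ ({PX n x} : Finset (Finset ℕ)); exact mem_singleton_self _) () (mem_univ _)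
  have hx2 : (2 : ℝ) ≤ x := by exact_mod_cast (by omega : 2 ≤ x)
  have hx0 : (0 : ℝ) < x := by linarith
  obtain ⟨Sg, hSg⟩ : ∃ Sg, Sg = ∑ p ∈ PX n x, proportion p (Rt (n := n) p) := ⟨_, rfl⟩
  rw [← hSg] at h3
  have h4 : ((PX n x).card : ℝ) / 4 ≤ Sg := by
    rw [hSg]
    have : ∀ p ∈ PX n x, (1 : ℝ) / 4 ≤ proportion p (Rt (n := n) p) := by
      intro p hp
      rw [mem_PX] at hp
      refine le_trans ?_ (prop_lower hn hp.1)
      have hp0 : (0 : ℝ) < p := by exact_mod_cast hp.1.pos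
      have h5 : (n : ℝ) / p ≤ 1 / 4 := by
        rw [div_le_div_iff₀ hp0 (by norm_num)]
        have : ((4 * n : ℕ) : ℝ) ≤ p := by exact_mod_cast hp.2.2
        push_cast at this
        linarith
      linarith
    have h6 := sum_le_sum this
    rw [sum_const, nsmul_eq_mul] at h6
    linarith
  have h5 : Sg ≤ x := by
    rw [hSg]
    have : ∀ p ∈ PX n x, proportion p (Rt (n := n) p) ≤ (1 : ℝ) := fun p hp => proportion_le_one (mem_PX.1 hp).1 _
    have h6 := sum_le_sum this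
    rw [sum_const, nsmul_eq_mul, mul_one] at h6
    exact h6.trans (card_PX_le n x)
  have h6 : Real.sqrt (max 1 Sg) * (x : ℝ) ^ (1 / 4 : ℝ) ≤ (x : ℝ) ^ (3 / 4 : ℝ) := by
    have h7 : Real.sqrt (max 1 Sg) ≤ (x : ℝ) ^ (1 / 2 : ℝ) := by
      rw [← Real.sqrt_eq_rpow]
      exact Real.sqrt_le_sqrt (max_le (by linarith) h5)
    calc Real.sqrt (max 1 Sg) * (x : ℝ) ^ (1 / 4 : ℝ) ≤ (x : ℝ) ^ (1 / 2 : ℝ) * (x : ℝ) ^ (1 / 4 : ℝ) :=
          mul_le_mul_of_nonneg_right h7 (by positivity)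
      _ = (x : ℝ) ^ (3 / 4 : ℝ) := by rw [← Real.rpow_add hx0]; norm_num
  have h7 := (abs_le.1 h3).1
  have h8 := card_PX n x
  have h9 : (x : ℝ) / (2 * Real.log x) = 8 * (x / (16 * Real.log x)) := by
    have hlog : 0 < Real.log x := Real.log_pos (by linarith)
    field_simp
    norm_num
  rw [h9] at h1
  have h10 : (number (PX n x) (fun p => Rt p m) : ℝ) ≥ Sg - (x : ℝ) ^ (3 / 4 : ℝ) := by linarith
  linarith

end Pool.Agent.Q93.LT
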