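import Pool.Agent.Q93.LT.Mom

/-! The fields `ℚ(√m)` and `ℚ(√-m)`. -/

set_option autoImplicit false

namespace Pool.Agent.Q93.LT

open Polynomial
open scoped NumberField IntermediateField

/-- an element of `E` whose square is an integer generates a number field -/
lemma fld_aux {E : Type} [Field E] [CharZero E] (β : E) (d : ℤ) (hβ : β ^ 2 = (d : E)) (hq : ∀ q : ℚ, algebraMap ℚ E q ≠ β) :
    ∃ _ : NumberField (IntermediateField.adjoin ℚ {β}), Module.finrank ℚ (IntermediateField.adjoin ℚ {β}) = 2 ∧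
      ∃ γ : IntermediateField.adjoin ℚ {β}, γ ^ 2 = (d : IntermediateField.adjoin ℚ {β}) ∧
        ∀ q : ℚ, algebraMap ℚ (IntermediateField.adjoin ℚ {β}) q ≠ γ := by
  have hint : IsIntegral ℚ β := by
    refine ⟨X ^ 2 - C (d : ℚ), monic_X_pow_sub_C _ (by norm_num), ?_⟩
    rw [eval₂_sub, eval₂_X_pow, eval₂_C, hβ]
    simp
  have hfd : FiniteDimensional ℚ (IntermediateField.adjoin ℚ {β}) := IntermediateField.adjoin.finiteDimensional hint
  have hnf : NumberField (IntermediateField.adjoin ℚ {β}) := { to_charZero := inferInstance, to_finiteDimensional := hfd }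
  refine ⟨hnf, ?_, ⟨β, IntermediateField.mem_adjoin_simple_self ℚ β⟩, ?_, ?_⟩
  · rw [IntermediateField.adjoin.finrank hint]
    apply le_antisymm
    · have h1 : minpoly ℚ β ∣ (X ^ 2 - C (d : ℚ)) := by
        apply minpoly.dvd
        rw [map_sub, map_pow, aeval_X, aeval_C, hβ]
        simp
      have h2 := natDegree_le_of_dvd h1 (monic_X_pow_sub_C (d : ℚ) (by norm_num)).ne_zero
      rwa [natDegree_X_pow_sub_C] at h2
    · rw [minpoly.two_le_natDegree_iff hint]
      rintro ⟨q, h⟩
      exact hq q h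
  · apply Subtype.ext
    simpa using hβ
  · intro q h
    apply hq q
    have := congrArg (fun z : IntermediateField.adjoin ℚ {β} => (z : E)) h
    simpa using this

/-- the imaginary quadratic field of the square root of `-m` -/
noncomputable def imag (m : ℕ) : IntermediateField ℚ ℂ := IntermediateField.adjoin ℚ {(Real.sqrt m : ℂ) * Complex.I}

/-- the real quadratic field of the square root of `m` -/
noncomputable def real (m : ℕ) : IntermediateField ℚ ℝ := IntermediateField.adjoin ℚ {Real.sqrt m}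

lemma imag_tor (m : ℕ) (hm : m ≠ 0) : ∃ _ : NumberField (imag m), Module.finrank ℚ (imag m) = 2 ∧
    ∀ l, IsTor false l m (Nat.card {c : ClassGroup (𝓞 (imag m)) // c ^ l = 1}) := by
  unfold imag
  have hs : 0 < Real.sqrt m := Real.sqrt_pos.2 (by exact_mod_cast Nat.pos_of_ne_zero hm)
  obtain ⟨h1, h2, γ, h3, h4⟩ := fld_aux ((Real.sqrt m : ℂ) * Complex.I) (-(m : ℤ)) (by
    rw [mul_pow, Complex.I_sq, ← Complex.ofReal_pow, Real.sq_sqrt (Nat.cast_nonneg m)]
    push_cast
    ring) (by
    intro q h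
    have := congrArg Complex.im h
    simp at this
    exact absurd this.symm hs.ne')
  refine ⟨h1, h2, fun l => ⟨_, inferInstance, h1, h2, ⟨γ, ?_, h4⟩, rfl⟩⟩
  rw [h3]
  simp

lemma real_tor (m : ℕ) (hm : ¬ IsSquare m) : ∃ _ : NumberField (real m), Module.finrank ℚ (real m) = 2 ∧
    ∀ l, IsTor true l m (Nat.card {c : ClassGroup (𝓞 (real m)) // c ^ l = 1}) := by
  unfold real
  obtain ⟨h1, h2, γ, h3, h4⟩ := fld_aux (Real.sqrt m) (m : ℤ) (by
    rw [Real.sq_sqrt (Nat.cast_nonneg m)]
    push_cast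
    rfl) (by
    intro q h
    apply hm
    have h5 : (q : ℝ) ^ 2 = m := by
      have : (q : ℝ) = Real.sqrt m := by simpa using h
      rw [this, Real.sq_sqrt (Nat.cast_nonneg m)]
    have h6 : q ^ 2 = (m : ℚ) := by exact_mod_cast h5
    rw [← Rat.isSquare_natCast_iff]
    exact ⟨q, by rw [← h6, sq]⟩)
  refine ⟨h1, h2, fun l => ⟨_, inferInstance, h1, h2, ⟨γ, ?_, h4⟩, rfl⟩⟩
  rw [h3]
  simp

end Pool.Agent.Q93.LT
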