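import Pool.Agent.TH869.EVF.Norm

/-! A prime modulo which the minimal polynomial of a generator is separable does not divide the discriminant. -/

set_option autoImplicit false

namespace Pool.Agent.Q93.LT

open Polynomial NumberField

variable {K : Type} [Field K] [NumberField K]

theorem not_dvd_absNorm (I : Ideal (𝓞 K)) (hI : I ≠ ⊥) (p : ℕ) (hp : p.Prime) (u : 𝓞 K) (hu : (p : 𝓞 K) * u - 1 ∈ I) :
    ¬ p ∣ Ideal.absNorm I := by
  intro hdvd
  have : Fact p.Prime := ⟨hp⟩
  have hfin : Finite (𝓞 K ⧸ I) := Ideal.finiteQuotientOfFreeOfNeBot I hI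
  have h1 : Ideal.absNorm I = Nat.card (𝓞 K ⧸ I) := by
    rw [Ideal.absNorm_apply]
    rfl
  rw [h1] at hdvd
  obtain ⟨x, hx⟩ := exists_prime_addOrderOf_dvd_card' p hdvd
  have h2 : p • x = 0 := by rw [← hx]; exact addOrderOf_nsmul_eq_zero x
  have h3 : (p : 𝓞 K ⧸ I) * Ideal.Quotient.mk I u = 1 := by
    have := Ideal.Quotient.eq_zero_iff_mem.2 hu
    rw [map_sub, map_mul, map_natCast, map_one, sub_eq_zero] at this
    exact this
  have h4 : x = 0 := by
    rw [nsmul_eq_mul] at h2
    calc x = ((p : 𝓞 K ⧸ I) * Ideal.Quotient.mk I u) * x := by rw [h3, one_mul]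
      _ = Ideal.Quotient.mk I u * (p * x) := by ring
      _ = 0 := by rw [h2, mul_zero]
  rw [h4, addOrderOf_zero] at hx
  exact hp.one_lt.ne hx

theorem not_dvd_discr (α : 𝓞 K) (hα : Algebra.adjoin ℚ {algebraMap (𝓞 K) K α} = ⊤) (p : ℕ) (hp : p.Prime)
    (hsep : ((minpoly ℤ α).map (Int.castRingHom (ZMod p))).Separable) : ¬ p ∣ (discr K).natAbs := by
  have : Fact p.Prime := ⟨hp⟩
  obtain ⟨a, b, hab⟩ := hsep
  have hsurj : Function.Surjective (Polynomial.map (Int.castRingHom (ZMod p))) :=
    Polynomial.map_surjective _ ZMod.intCast_surjective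
  obtain ⟨a', rfl⟩ := hsurj a
  obtain ⟨b', rfl⟩ := hsurj b
  have h0 : (a' * minpoly ℤ α + b' * derivative (minpoly ℤ α) - 1).map (Int.castRingHom (ZMod p)) = 0 := by
    rw [Polynomial.map_sub, Polynomial.map_add, Polynomial.map_mul, Polynomial.map_mul, ← Polynomial.derivative_map, hab, Polynomial.map_one, sub_self]
  have h1 : C (p : ℤ) ∣ (a' * minpoly ℤ α + b' * derivative (minpoly ℤ α) - 1) := by
    rw [Polynomial.C_dvd_iff_dvd_coeff]
    intro i
    have h2 := congrArg (fun q => q.coeff i) h0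
    simp only [Polynomial.coeff_map, Polynomial.coeff_zero] at h2
    exact (ZMod.intCast_zmod_eq_zero_iff_dvd _ _).1 h2
  obtain ⟨c, hc⟩ := h1
  have h3 := congrArg (fun q => aeval α q) hc
  simp only [map_sub, map_add, map_mul, map_one, minpoly.aeval, mul_zero, zero_add, aeval_C] at h3
  have hmem : aeval α (derivative (minpoly ℤ α)) ∈ differentIdeal ℤ (𝓞 K) := by
    have h := conductor_mul_differentIdeal ℤ ℚ K α hα
    have h2 : aeval α (derivative (minpoly ℤ α)) ∈ conductor ℤ α * differentIdeal ℤ (𝓞 K) :=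
      h.symm ▸ Ideal.mem_span_singleton_self _
    have h3' : conductor ℤ α * differentIdeal ℤ (𝓞 K) ≤ differentIdeal ℤ (𝓞 K) := Ideal.mul_le_right
    exact h3' h2
  rw [← absNorm_differentIdeal K (𝓞 K)]
  refine not_dvd_absNorm _ ?_ p hp (-(aeval α c)) ?_
  · exact differentIdeal_ne_bot
  · have h4 : (p : 𝓞 K) * (-(aeval α c)) - 1 = -(aeval α b' * aeval α (derivative (minpoly ℤ α))) := by
      have h5 : (algebraMap ℤ (𝓞 K)) (p : ℤ) = (p : 𝓞 K) := by simp
      rw [h5] at h3
      linear_combination h3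
    rw [h4]
    exact neg_mem (Ideal.mul_mem_left _ _ hmem)

end Pool.Agent.Q93.LT

namespace Pool.Agent.Q93.LT

open Polynomial NumberField

/-- If the monic integer polynomial `g` of degree `[K : ℚ]` vanishes at a generator of `K`, is separable modulo `p` and has a root
modulo `p`, then `p` is the norm of an ideal, and does not divide the discriminant. -/
theorem norm_and_unram {K : Type} [Field K] [NumberField K] (g : ℤ[X]) (hg : g.Monic)
    (hdeg : g.natDegree = Module.finrank ℚ K) (α : K)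
    (hα : IntermediateField.adjoin ℚ {α} = ⊤) (h0 : aeval α g = 0) (p : ℕ) (hp : p.Prime)
    (hsep : (g.map (Int.castRingHom (ZMod p))).Separable) (r : ZMod p) (hr : (g.map (Int.castRingHom (ZMod p))).eval r = 0) :
    (∃ P : Ideal (𝓞 K), Ideal.absNorm P = p) ∧ ¬ p ∣ (discr K).natAbs := by
  have : Fact p.Prime := ⟨hp⟩
  have hint : IsIntegral ℤ α := ⟨g, hg, h0⟩
  set β : 𝓞 K := ⟨α, hint⟩ with hβ
  have hβα : algebraMap (𝓞 K) K β = α := rfl
  have hmin : minpoly ℤ β = minpoly ℤ α := by
    rw [← RingOfIntegers.minpoly_coe]; rfl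
  have hQ : (minpoly ℚ α).natDegree = Module.finrank ℚ K := by
    rw [← IntermediateField.adjoin.finrank (IsIntegral.tower_top hint), hα,
      IntermediateField.finrank_top']
  have hZ : (minpoly ℤ α).natDegree = Module.finrank ℚ K := by
    rw [← hQ, minpoly.isIntegrallyClosed_eq_field_fractions' ℚ hint,
      (minpoly.monic hint).natDegree_map]
  have hgm : g = minpoly ℤ α := by
    refine eq_of_monic_of_dvd_of_natDegree_le (minpoly.monic hint) hg
      (minpoly.isIntegrallyClosed_dvd hint h0) ?_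
    rw [hdeg, hZ]
  have had : Algebra.adjoin ℚ {algebraMap (𝓞 K) K β} = ⊤ := by
    rw [hβα, ← IntermediateField.adjoin_simple_toSubalgebra_of_isAlgebraic
      (Algebra.IsAlgebraic.isAlgebraic α), hα, IntermediateField.top_toSubalgebra]
  constructor
  · refine Pool.Agent.TH869.EVF.exists_norm β had p hp r ?_ ?_
    · rw [hmin, ← hgm, ← Polynomial.eval_map]; exact hr
    · rw [hmin, ← hgm, ← Polynomial.eval_map, ← Polynomial.derivative_map]
      have h5 := hsep.eval₂_derivative_ne_zero (RingHom.id (ZMod p)) (x := r) (by rw [Polynomial.eval₂_id]; exact hr)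
      rwa [Polynomial.eval₂_id] at h5
  · refine not_dvd_discr β had p hp ?_
    rw [hmin, ← hgm]
    exact hsep

end Pool.Agent.Q93.LT
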