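import Pool.Agent.Q93.LT.Quad

/-! Moments of the numbers of ideal classes killed by `l` for the quadratic fields `ℚ(√±m)`, where `m` arises from an arbitrary
integer by changing a few digits. -/

set_option autoImplicit false

namespace Pool.Agent.Q93.LT

open Finset Filter Polynomial Pool.Agent.Q235.FD Topology
open scoped NumberField

/-- `t` is the number of ideal classes killed by `l` in a quadratic field generated by a square root of `m` (resp. `-m`). -/
def IsTor (σ : Bool) (l m t : ℕ) : Prop := ∃ (F : Type) (_ : Field F) (_ : NumberField F), Module.finrank ℚ F = 2 ∧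
  (∃ β : F, β ^ 2 = (if σ then (m : F) else -(m : F)) ∧ ∀ q : ℚ, algebraMap ℚ F q ≠ β) ∧
  t = Nat.card {c : ClassGroup (𝓞 F) // c ^ l = 1}

theorem triv (l : ℕ) (hl : 1 ≤ l) : ∃ C : ℝ, 0 < C ∧ ∀ (F : Type) [Field F] [NumberField F], Module.finrank ℚ F = 2 →
    (Nat.card {c : ClassGroup (𝓞 F) // c ^ l = 1} : ℝ) ≤ C * Real.sqrt |(NumberField.discr F : ℝ)| := by
  obtain ⟨C, hC0, hC⟩ := Pool.Agent.Results.MP_695920_nt.LogSavingAllDegrees.result 2 le_rfl
  refine ⟨C * l ^ 2 * 12, by positivity, ?_⟩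
  intro F _ _ hF
  obtain ⟨-, h1, -⟩ := hC l hl F hF
  obtain ⟨D, hDd⟩ : ∃ D : ℝ, D = |(NumberField.discr F : ℝ)| := ⟨_, rfl⟩
  rw [← hDd] at h1 ⊢
  have hDnat : D = ((NumberField.discr F).natAbs : ℝ) := by
    rw [hDd, Nat.cast_natAbs]
    push_cast
    rfl
  have hD3 : 3 ≤ D := by
    have := NumberField.abs_discr_gt_two (K := F) (by rw [hF]; omega)
    rw [Int.abs_eq_natAbs] at this
    have h2 : 2 < (NumberField.discr F).natAbs := by exact_mod_cast this
    rw [hDnat]
    exact_mod_cast h2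
  have hlogD : 1 ≤ Real.log D := by
    rw [Real.le_log_iff_exp_le (by linarith)]
    have := Real.exp_one_lt_d9
    linarith
  have h2 := log_pow 2 (by omega) (show (0 : ℝ) < 1 by norm_num) (t := Real.log D + 2) (by linarith)
  rw [div_one, Real.rpow_one] at h2
  have h3 : (Real.log (Real.log D + 2)) ^ 2 ≤ 12 * Real.log D := by
    push_cast at h2
    nlinarith
  have h4 : 0 ≤ Real.sqrt D / Real.log D := by positivity
  calc _ ≤ C * l ^ 2 * (Real.log (Real.log D + 2)) ^ 2 * (Real.sqrt D / Real.log D) := h1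
    _ ≤ C * l ^ 2 * (12 * Real.log D) * (Real.sqrt D / Real.log D) := by gcongr
    _ = C * l ^ 2 * 12 * Real.sqrt D := by field_simp

lemma disc_bound {σ : Bool} {m : ℕ} {F : Type} [Field F] [NumberField F] (hF : Module.finrank ℚ F = 2) (β : F)
    (hβ : β ^ 2 = (if σ then (m : F) else -(m : F))) (hq : ∀ q : ℚ, algebraMap ℚ F q ≠ β) :
    |(NumberField.discr F : ℝ)| ≤ 4 * m := by
  have hm : m ≠ 0 := by
    rintro rfl
    apply hq 0
    have : β ^ 2 = 0 := by
      rw [hβ]
      cases σ <;> simp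
    rw [map_zero]
    exact (pow_eq_zero_iff (by norm_num)).1 this |>.symm
  have h1 := discr_le hF β hq (if σ then (m : ℤ) else -(m : ℤ)) (by cases σ <;> simp [hm]) (by
    rw [hβ]
    cases σ <;> simp)
  refine h1.trans (le_of_eq ?_)
  cases σ <;> simp

/-- the bound for a single field -/
theorem pointwise (σ : Bool) (l : ℕ) (hl : 1 ≤ l) : ∃ C : ℝ, 0 < C ∧ ∃ x₁ : ℕ, ∀ x : ℕ, x₁ ≤ x → ∀ m : Unit → ℕ,
    (x : ℝ) / (16 * Real.log x) ≤ number (PX 2 x) (fun p => Sq σ p m) → ∀ X : ℝ, (m () : ℝ) ≤ X → ((150 * (x : ℝ)) ^ l) ^ 2 * x ≤ X →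
    ∀ t : ℕ, IsTor σ l (m ()) t → (t : ℝ) ≤ C * (Real.sqrt X / Real.sqrt x) := by
  obtain ⟨C, hC, x₀, h⟩ := torsion_le 2 le_rfl (show (0 : ℝ) < 1 / 2 by norm_num) (by norm_num)
  obtain ⟨C1, hC1, h1⟩ := triv l hl
  refine ⟨C * l ^ 2 * 2 + C1 * 2, by positivity, x₀ + 1, ?_⟩
  intro x hx m hnum X hmX hX t ht
  obtain ⟨F, _, _, hF, ⟨β, hβ, hq⟩, rfl⟩ := ht
  have hD := disc_bound hF β hβ hq
  have hx1 : (1 : ℝ) ≤ x := by exact_mod_cast (by omega : 1 ≤ x)
  have hx0 : (0 : ℝ) < x := by linarith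
  have hX0 : 0 ≤ X := le_trans (Nat.cast_nonneg _) hmX
  have hsx : 0 < Real.sqrt x := Real.sqrt_pos.2 hx0
  have hsD : Real.sqrt |(NumberField.discr F : ℝ)| ≤ 2 * Real.sqrt X := by
    calc Real.sqrt |(NumberField.discr F : ℝ)| ≤ Real.sqrt (4 * X) := Real.sqrt_le_sqrt (by linarith)
      _ = 2 * Real.sqrt X := by
          rw [Real.sqrt_mul (by norm_num)]
          congr 1
          rw [show (4 : ℝ) = 2 ^ 2 by norm_num]
          exact Real.sqrt_sq (by norm_num)
  by_cases hc : (2 * (150 * x) ^ l) ^ (2 * (2 - 1)) < (NumberField.discr F).natAbs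
  · -- the field has many small primes
    have hα : IntermediateField.adjoin ℚ {if σ then β - (m () : F) else β} = ⊤ := by
      cases σ
      · exact adjoin_top hF β hq
      · simp only [if_true]
        apply adjoin_top hF
        intro q hqq
        apply hq (q + m ())
        rw [map_add, hqq]
        simp
    have h0 : (if σ then β - (m () : F) else β) ^ 2 + ∑ i : Fin 2, ((vec σ (m ())) i : F) * (if σ then β - (m () : F) else β) ^ (i : ℕ) = 0 := by
      cases σ
      · simp only [Bool.false_eq_true, if_false] at hβ ⊢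
        simp [vec, Fin.sum_univ_two, hβ]
      · simp only [if_true] at hβ ⊢
        simp only [vec, Fin.sum_univ_two, if_true, Matrix.cons_val_zero, Matrix.cons_val_one, Fin.val_zero, Fin.val_one, pow_zero,
          pow_one, mul_one]
        have e : ((m () * (m () - 1) : ℕ) : F) = (m () : F) * ((m () : F) - 1) := by
          rcases Nat.eq_zero_or_pos (m ()) with h | h
          · rw [h]; simp
          · rw [Nat.cast_mul, Nat.cast_sub h, Nat.cast_one]
        rw [e]
        push_cast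
        linear_combination hβ
    have h2 := h x (by omega) (vec σ (m ())) hnum l hl F hF _ hα h0 hc
    have e1 : (x : ℝ) ^ (1 - 1 / 2 : ℝ) = Real.sqrt x := by
      rw [Real.sqrt_eq_rpow]
      norm_num
    rw [e1] at h2
    refine h2.trans ?_
    calc C * (l : ℝ) ^ 2 * Real.sqrt |(NumberField.discr F : ℝ)| / Real.sqrt x ≤ C * (l : ℝ) ^ 2 * (2 * Real.sqrt X) / Real.sqrt x := by gcongr
      _ = C * l ^ 2 * 2 * (Real.sqrt X / Real.sqrt x) := by ring
      _ ≤ (C * l ^ 2 * 2 + C1 * 2) * (Real.sqrt X / Real.sqrt x) := by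
          apply mul_le_mul_of_nonneg_right _ (by positivity)
          linarith
  · -- the discriminant is small
    push Not at hc
    have h2 : |(NumberField.discr F : ℝ)| ≤ (2 * (150 * (x : ℝ)) ^ l) ^ 2 := by
      have e : |(NumberField.discr F : ℝ)| = ((NumberField.discr F).natAbs : ℝ) := by
        rw [Nat.cast_natAbs]
        push_cast
        rfl
      rw [e]
      have h3 : (NumberField.discr F).natAbs ≤ (2 * (150 * x) ^ l) ^ 2 := hc
      exact_mod_cast h3
    have h3 : Real.sqrt |(NumberField.discr F : ℝ)| ≤ 2 * (150 * (x : ℝ)) ^ l := by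
      have := Real.sqrt_le_sqrt h2
      rwa [Real.sqrt_sq (by positivity)] at this
    have h4 : (150 * (x : ℝ)) ^ l ≤ Real.sqrt X / Real.sqrt x := by
      rw [le_div_iff₀ hsx]
      have h5 := Real.sqrt_le_sqrt hX
      rwa [Real.sqrt_mul (by positivity), Real.sqrt_sq (by positivity)] at h5
    calc _ ≤ C1 * Real.sqrt |(NumberField.discr F : ℝ)| := h1 F hF
      _ ≤ C1 * (2 * (150 * (x : ℝ)) ^ l) := mul_le_mul_of_nonneg_left h3 hC1.le
      _ ≤ C1 * (2 * (Real.sqrt X / Real.sqrt x)) := by gcongr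
      _ = C1 * 2 * (Real.sqrt X / Real.sqrt x) := by ring
      _ ≤ (C * l ^ 2 * 2 + C1 * 2) * (Real.sqrt X / Real.sqrt x) := by
          apply mul_le_mul_of_nonneg_right _ (by positivity)
          have : 0 ≤ C * (l : ℝ) ^ 2 * 2 := by positivity
          linarith

lemma change_lt {b : ℕ} (hb : 2 ≤ b) (K N : ℕ) (f : ℕ → ℕ) (hf : ∀ j, f j < b) (S : Finset ℕ) : change b K N f S < b ^ K := by
  unfold change
  have key : ∀ (K : ℕ) (g : ℕ → ℕ), (∀ i, g i < b) → ∑ i ∈ range K, g i * b ^ i < b ^ K := by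
    intro K g hg
    induction K with
    | zero => simp
    | succ K ih =>
      rw [sum_range_succ, pow_succ]
      have h1 : g K * b ^ K ≤ (b - 1) * b ^ K := Nat.mul_le_mul_right _ (by have := hg K; omega)
      have h2 : (b - 1) * b ^ K + b ^ K = b ^ K * b := by
        obtain ⟨c, rfl⟩ : ∃ c, b = c + 1 := ⟨b - 1, by omega⟩
        rw [Nat.add_sub_cancel]
        ring
      omega
  refine key K _ ?_
  intro i
  split_ifs
  · exact hf i
  · exact Nat.mod_lt _ (by omega)

/-- the moments -/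
theorem moment (σ : Bool) (l : ℕ) (hl : 1 ≤ l) (k : ℕ) {b : ℕ} (hb : 2 ≤ b) : ∃ c : ℝ, 0 < c ∧ ∃ C : ℝ, 0 < C ∧
    ∀ (K r N : ℕ) (f : ℕ → ℕ), 2 * r ≤ K → N < b ^ K → (∀ j, f j < b ∧ f j ≠ digit b j N) →
    ∀ (W : Finset (Finset ℕ)) (t : ℕ → ℕ), W ⊆ powersetCard r (range K) → (∀ S ∈ W, IsTor σ l (change b K N f S) (t (change b K N f S))) →
    ∑ S ∈ W, (t (change b K N f S) : ℝ) ^ k ≤ C * (Real.sqrt ((b : ℝ) ^ K) * Real.exp (-(c * r))) ^ k * K.choose r := by
  classical
  obtain ⟨C, hC, x₁, hpt⟩ := pointwise σ l hl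
  obtain ⟨C1, hC1, htr⟩ := triv l hl
  obtain ⟨c0, hc0, y₀, hlaw⟩ := many_quad σ hb k
  have hb0 : (0 : ℝ) < b := by exact_mod_cast (by omega : 0 < b)
  have hb1 : (1 : ℝ) < b := by exact_mod_cast (by omega : 1 < b)
  have hlb : 0 < Real.log b := Real.log_pos hb1
  obtain ⟨c, hc⟩ : ∃ c, c = min c0 (Real.log b / (l + 1)) := ⟨_, rfl⟩
  have hcpos : 0 < c := by rw [hc]; exact lt_min hc0 (by positivity)
  obtain ⟨q₀, hq₀⟩ : ∃ q₀ : ℕ, q₀ = 150 ^ (2 * l) := ⟨_, rfl⟩
  obtain ⟨x₂, hx₂⟩ : ∃ x₂, x₂ = x₁ + y₀ + q₀ + 2 := ⟨_, rfl⟩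
  refine ⟨c / 2, by positivity, (2 * C) ^ k + (4 * C1) ^ k + (2 * C1 * (x₂ + 1)) ^ k + 1, by positivity, ?_⟩
  intro K r N f hrK hN hf W t hW ht
  obtain ⟨M, hM⟩ : ∃ M, M = Real.sqrt ((b : ℝ) ^ K) := ⟨_, rfl⟩
  have hM0 : 0 < M := by rw [hM]; exact Real.sqrt_pos.2 (by positivity)
  rw [← hM]
  obtain ⟨e, he⟩ : ∃ e, e = Real.exp (-(c / 2 * r)) := ⟨_, rfl⟩
  have he0 : 0 < e := by rw [he]; exact Real.exp_pos _
  have he1 : e ≤ 1 := by
    rw [he]
    apply Real.exp_le_one_iff.2
    have : 0 ≤ c / 2 * r := by positivity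
    linarith
  rw [← he]
  have hlt : ∀ S, ((change b K N f S : ℕ) : ℝ) ≤ (b : ℝ) ^ K := fun S => by
    exact_mod_cast (change_lt hb K N f (fun j => (hf j).1) S).le
  -- the trivial bound
  have hT : ∀ S ∈ W, (t (change b K N f S) : ℝ) ≤ 2 * C1 * M := by
    intro S hS
    obtain ⟨F, _, _, hF, ⟨β, hβ, hq⟩, h1⟩ := ht S hS
    rw [h1]
    have hD := disc_bound hF β hβ hq
    calc _ ≤ C1 * Real.sqrt |(NumberField.discr F : ℝ)| := htr F hF
      _ ≤ C1 * Real.sqrt (4 * (b : ℝ) ^ K) := by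
          apply mul_le_mul_of_nonneg_left _ hC1.le
          apply Real.sqrt_le_sqrt
          have := hlt S
          linarith
      _ = 2 * C1 * M := by
          rw [Real.sqrt_mul (by norm_num), show (4 : ℝ) = 2 ^ 2 by norm_num, Real.sqrt_sq (by norm_num), hM]
          ring
  have hcardW : (W.card : ℝ) ≤ K.choose r := by
    have := card_le_card hW
    rw [card_powersetCard, card_range] at this
    exact_mod_cast this
  have hch0 : (0 : ℝ) ≤ K.choose r := Nat.cast_nonneg _
  obtain ⟨x, hx⟩ : ∃ x, x = ⌊Real.exp (c * r)⌋₊ := ⟨_, rfl⟩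
  have hxle : (x : ℝ) ≤ Real.exp (c * r) := by rw [hx]; exact Nat.floor_le (Real.exp_pos _).le
  have hxlt : Real.exp (c * r) < x + 1 := by rw [hx]; exact Nat.lt_floor_add_one _
  have hee : e * e = Real.exp (-(c * r)) := by
    rw [he, ← Real.exp_add]
    congr 1
    ring
  have hinv : Real.exp (-(c * r)) * Real.exp (c * r) = 1 := by
    rw [← Real.exp_add]
    simp
  by_cases hbig : x₂ ≤ x
  · -- the law
    have hx2 : (2 : ℝ) ≤ x := by exact_mod_cast (by omega : 2 ≤ x)
    have hx0 : (0 : ℝ) < x := by linarith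
    have hsx : 0 < Real.sqrt x := Real.sqrt_pos.2 hx0
    have hex : Real.exp (c * r) ≤ 2 * x := by linarith
    have hxe : 1 / (x : ℝ) ≤ 2 * (e * e) := by
      rw [div_le_iff₀ hx0, hee]
      have : Real.exp (-(c * r)) * Real.exp (c * r) ≤ Real.exp (-(c * r)) * (2 * x) :=
        mul_le_mul_of_nonneg_left hex (Real.exp_pos _).le
      rw [hinv] at this
      linarith
    have hsxe : 1 / Real.sqrt x ≤ 2 * e := by
      have h1 : (1 / Real.sqrt x) ^ 2 ≤ (2 * e) ^ 2 := by
        rw [div_pow, one_pow, Real.sq_sqrt hx0.le]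
        nlinarith [mul_pos he0 he0]
      exact (pow_le_pow_iff_left₀ (by positivity) (by positivity) (by norm_num)).1 h1
    have hX : ((150 * (x : ℝ)) ^ l) ^ 2 * x ≤ (b : ℝ) ^ K := by
      have h150 : (150 : ℝ) ^ (2 * l) ≤ x := by
        have : q₀ ≤ x := by omega
        rw [hq₀] at this
        exact_mod_cast this
      calc ((150 * (x : ℝ)) ^ l) ^ 2 * x = 150 ^ (2 * l) * (x ^ (2 * l) * x) := by
            rw [mul_pow, mul_pow, ← pow_mul, ← pow_mul, mul_comm l 2]
            ring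
        _ ≤ x * (x ^ (2 * l) * x) := mul_le_mul_of_nonneg_right h150 (by positivity)
        _ = x ^ (2 * l + 2) := by ring
        _ ≤ (Real.exp (c * r)) ^ (2 * l + 2) := pow_le_pow_left₀ hx0.le hxle _
        _ = Real.exp ((2 * l + 2) * (c * r)) := by
            rw [← Real.exp_nat_mul]
            congr 1
            push_cast
            ring
        _ ≤ Real.exp (K * Real.log b) := by
            apply Real.exp_le_exp.2
            have h1 : c * (l + 1) ≤ Real.log b := by
              have : c ≤ Real.log b / (l + 1) := by rw [hc]; exact min_le_right _ _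
              rwa [le_div_iff₀ (by positivity)] at this
            have h2 : (2 : ℝ) * r ≤ K := by exact_mod_cast hrK
            calc (2 * (l : ℝ) + 2) * (c * r) = (c * (l + 1)) * (2 * r) := by ring
              _ ≤ Real.log b * K := mul_le_mul h1 h2 (by positivity) hlb.le
              _ = K * Real.log b := by ring
        _ = (b : ℝ) ^ K := by
            rw [Real.exp_nat_mul, Real.exp_log hb0]
    -- the exceptional set
    obtain ⟨E, hE⟩ : ∃ E : (Unit → ℕ) → Prop, E = fun m => ∀ x' : ℕ, x ≤ x' → (∀ _ : Unit, (x' : ℝ) ≤ Real.exp (c0 * r)) →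
      (x' : ℝ) / (16 * Real.log x') ≤ number (PX 2 x') (fun p => Sq σ p m) := ⟨_, rfl⟩
    have hex1 := hlaw () (fun _ => K) (fun _ => r) (fun _ => N) (fun _ => f) x ⟨fun _ => hrK, fun _ => hN, fun _ j => hf j⟩ (by omega)
    rw [← hE] at hex1
    simp only [univ_unique, prod_singleton] at hex1
    obtain ⟨B, hB⟩ : ∃ B, B = W.filter (fun S => ¬ E (fun _ => change b K N f S)) := ⟨_, rfl⟩
    have hBcard : (B.card : ℝ) ≤ 1 / (x : ℝ) ^ k * K.choose r := by
      refine le_trans ?_ hex1
      unfold exceptions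
      apply Nat.cast_le.2
      apply card_le_card_of_injOn (fun S => fun _ => S)
      · intro S hS
        rw [mem_coe, hB, mem_filter] at hS
        rw [mem_coe, mem_filter]
        exact ⟨(@Fintype.mem_piFinset Unit (fun a b => Classical.propDecidable (a = b)) _ _ _ _).2 fun _ => hW hS.1, hS.2⟩
      · intro S _ S' _ h
        exact congrFun h ()
    have hgood : ∀ S ∈ W.filter (fun S => E (fun _ => change b K N f S)), (t (change b K N f S) : ℝ) ^ k ≤ (C * (M / Real.sqrt x)) ^ k := by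
      intro S hS
      rw [mem_filter] at hS
      apply pow_le_pow_left₀ (Nat.cast_nonneg _)
      have h1 : (x : ℝ) / (16 * Real.log x) ≤ number (PX 2 x) (fun p => Sq σ p (fun _ => change b K N f S)) := by
        have h2 := hS.2
        rw [hE] at h2
        apply h2 x le_rfl
        intro _
        refine hxle.trans (Real.exp_le_exp.2 ?_)
        exact mul_le_mul_of_nonneg_right (by rw [hc]; exact min_le_left _ _) (Nat.cast_nonneg _)
      rw [hM]
      exact hpt x (by omega) (fun _ => change b K N f S) h1 ((b : ℝ) ^ K) (hlt S) hX _ (ht S hS.1)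
    have hbad : ∀ S ∈ B, (t (change b K N f S) : ℝ) ^ k ≤ (2 * C1 * M) ^ k := by
      intro S hS
      rw [hB, mem_filter] at hS
      exact pow_le_pow_left₀ (Nat.cast_nonneg _) (hT S hS.1) _
    have hsplit : ∑ S ∈ W, (t (change b K N f S) : ℝ) ^ k =
        ∑ S ∈ W.filter (fun S => E (fun _ => change b K N f S)), (t (change b K N f S) : ℝ) ^ k +
        ∑ S ∈ B, (t (change b K N f S) : ℝ) ^ k := by
      rw [hB, sum_filter_add_sum_filter_not]
    rw [hsplit]
    have h1 := sum_le_sum hgood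
    have h2 := sum_le_sum hbad
    rw [sum_const, nsmul_eq_mul] at h1 h2
    have h3 : ((W.filter (fun S => E (fun _ => change b K N f S))).card : ℝ) ≤ K.choose r := by
      refine le_trans ?_ hcardW
      exact_mod_cast card_filter_le _ _
    have h4 : ((W.filter (fun S => E (fun _ => change b K N f S))).card : ℝ) * (C * (M / Real.sqrt x)) ^ k ≤
        (2 * C) ^ k * (M * e) ^ k * K.choose r := by
      calc _ ≤ (K.choose r : ℝ) * (C * (M * (2 * e))) ^ k := by
            apply mul_le_mul h3 _ (by positivity) hch0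
            apply pow_le_pow_left₀ (by positivity)
            apply mul_le_mul_of_nonneg_left _ hC.le
            rw [div_eq_mul_one_div]
            exact mul_le_mul_of_nonneg_left hsxe hM0.le
        _ = (2 * C) ^ k * (M * e) ^ k * K.choose r := by
            rw [← mul_pow, mul_comm (K.choose r : ℝ)]
            congr 2
            ring
    have h5 : (B.card : ℝ) * (2 * C1 * M) ^ k ≤ (4 * C1) ^ k * (M * e) ^ k * K.choose r := by
      calc _ ≤ (1 / (x : ℝ) ^ k * K.choose r) * (2 * C1 * M) ^ k := mul_le_mul_of_nonneg_right hBcard (by positivity)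
        _ = (1 / (x : ℝ)) ^ k * (2 * C1 * M) ^ k * K.choose r := by
            rw [div_pow, one_pow]
            ring
        _ ≤ (2 * e) ^ k * (2 * C1 * M) ^ k * K.choose r := by
            apply mul_le_mul_of_nonneg_right _ hch0
            apply mul_le_mul_of_nonneg_right _ (by positivity)
            apply pow_le_pow_left₀ (by positivity)
            refine hxe.trans ?_
            nlinarith
        _ = (4 * C1) ^ k * (M * e) ^ k * K.choose r := by
            rw [← mul_pow, ← mul_pow]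
            congr 2
            ring
    have h6 : (0 : ℝ) ≤ (M * e) ^ k * K.choose r := by positivity
    have h7 : (0 : ℝ) ≤ (2 * C1 * (x₂ + 1)) ^ k + 1 := by positivity
    calc _ ≤ (2 * C) ^ k * (M * e) ^ k * K.choose r + (4 * C1) ^ k * (M * e) ^ k * K.choose r := by linarith
      _ ≤ ((2 * C) ^ k + (4 * C1) ^ k + (2 * C1 * (x₂ + 1)) ^ k + 1) * (M * e) ^ k * K.choose r := by
          have e3 : ((2 * C) ^ k + (4 * C1) ^ k + (2 * C1 * (x₂ + 1)) ^ k + 1) * (M * e) ^ k * K.choose r =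
              (2 * C) ^ k * (M * e) ^ k * K.choose r + (4 * C1) ^ k * (M * e) ^ k * K.choose r +
              ((2 * C1 * (x₂ + 1)) ^ k + 1) * ((M * e) ^ k * K.choose r) := by ring
          have e4 := mul_nonneg h7 h6
          linarith
  · -- `r` is bounded
    push Not at hbig
    have h1 : Real.exp (c * r) ≤ x₂ + 1 := by
      have : (x : ℝ) ≤ x₂ := by exact_mod_cast hbig.le
      linarith
    have h2 : 1 ≤ (x₂ + 1) * e := by
      have h3 : Real.exp (-(c * r)) * Real.exp (c * r) ≤ Real.exp (-(c * r)) * (x₂ + 1) :=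
        mul_le_mul_of_nonneg_left h1 (Real.exp_pos _).le
      rw [hinv, ← hee] at h3
      have h4 : e * e * ((x₂ : ℝ) + 1) ≤ e * ((x₂ : ℝ) + 1) := by
        apply mul_le_mul_of_nonneg_right _ (by positivity)
        nlinarith
      linarith
    have h3 : ∀ S ∈ W, (t (change b K N f S) : ℝ) ^ k ≤ (2 * C1 * (x₂ + 1)) ^ k * (M * e) ^ k := by
      intro S hS
      rw [← mul_pow]
      apply pow_le_pow_left₀ (Nat.cast_nonneg _)
      refine (hT S hS).trans ?_
      calc 2 * C1 * M = 2 * C1 * M * 1 := by ring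
        _ ≤ 2 * C1 * M * ((x₂ + 1) * e) := mul_le_mul_of_nonneg_left h2 (by positivity)
        _ = 2 * C1 * (x₂ + 1) * (M * e) := by ring
    have h4 := sum_le_sum h3
    rw [sum_const, nsmul_eq_mul] at h4
    have h6 : (0 : ℝ) ≤ (M * e) ^ k * K.choose r := by positivity
    have h7 : (0 : ℝ) ≤ (2 * C) ^ k + (4 * C1) ^ k + 1 := by positivity
    calc _ ≤ (W.card : ℝ) * ((2 * C1 * (x₂ + 1)) ^ k * (M * e) ^ k) := h4
      _ ≤ (K.choose r : ℝ) * ((2 * C1 * (x₂ + 1)) ^ k * (M * e) ^ k) := mul_le_mul_of_nonneg_right hcardW (by positivity)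
      _ ≤ ((2 * C) ^ k + (4 * C1) ^ k + (2 * C1 * (x₂ + 1)) ^ k + 1) * (M * e) ^ k * K.choose r := by
          have e3 : ((2 * C) ^ k + (4 * C1) ^ k + (2 * C1 * (x₂ + 1)) ^ k + 1) * (M * e) ^ k * K.choose r =
              (K.choose r : ℝ) * ((2 * C1 * (x₂ + 1)) ^ k * (M * e) ^ k) +
              ((2 * C) ^ k + (4 * C1) ^ k + 1) * ((M * e) ^ k * K.choose r) := by ring
          have e4 := mul_nonneg h7 h6
          linarith

end Pool.Agent.Q93.LT
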