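import Mathlib

/-! The discriminant of a quadratic number field which contains a square root of `d` is at most `4 |d|`. -/

set_option autoImplicit false

namespace Pool.Agent.Q93.LT

open Finset NumberField Module
open scoped NumberField

variable {F : Type} [Field F] [NumberField F]

lemma linInd (β : F) (hrat : ∀ q : ℚ, (algebraMap ℚ F q) ≠ β) : LinearIndependent ℚ ![(1 : F), β] := by
  rw [LinearIndependent.pair_iff]
  intro s t h
  by_cases ht : t = 0
  · subst ht
    rw [zero_smul, add_zero, Algebra.smul_def, mul_one] at h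
    exact ⟨by simpa using h, rfl⟩
  · exfalso
    apply hrat (-s / t)
    rw [Algebra.smul_def, Algebra.smul_def, mul_one] at h
    have ht' : algebraMap ℚ F t ≠ 0 := by simpa using ht
    rw [map_div₀, map_neg, div_eq_iff ht']
    linear_combination -h

/-- the basis `1, β` -/
noncomputable def bas (hF : finrank ℚ F = 2) (β : F) (hrat : ∀ q : ℚ, (algebraMap ℚ F q) ≠ β) : Basis (Fin 2) ℚ F :=
  basisOfLinearIndependentOfCardEqFinrank (linInd β hrat) (by rw [hF]; simp)

lemma bas_zero (hF : finrank ℚ F = 2) (β : F) (hrat : ∀ q : ℚ, (algebraMap ℚ F q) ≠ β) : bas hF β hrat 0 = 1 := by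
  simp [bas]

lemma bas_one (hF : finrank ℚ F = 2) (β : F) (hrat : ∀ q : ℚ, (algebraMap ℚ F q) ≠ β) : bas hF β hrat 1 = β := by
  simp [bas]

lemma coe_bas (hF : finrank ℚ F = 2) (β : F) (hrat : ∀ q : ℚ, (algebraMap ℚ F q) ≠ β) : ⇑(bas hF β hrat) = ![(1 : F), β] := by
  simp [bas]

lemma trace_zero (hF : finrank ℚ F = 2) (β : F) (hrat : ∀ q : ℚ, (algebraMap ℚ F q) ≠ β) (d : ℤ) (hβ : β ^ 2 = (d : F)) :
    Algebra.trace ℚ F β = 0 := by
  rw [Algebra.trace_eq_matrix_trace (bas hF β hrat), Matrix.trace_fin_two, Algebra.leftMulMatrix_eq_repr_mul,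
    Algebra.leftMulMatrix_eq_repr_mul]
  have h0 : β * (bas hF β hrat) 0 = (bas hF β hrat) 1 := by rw [bas_zero, bas_one, mul_one]
  have h1 : β * (bas hF β hrat) 1 = (d : ℚ) • (bas hF β hrat) 0 := by
    rw [bas_zero, bas_one, Algebra.smul_def, mul_one, ← sq, hβ]
    simp
  rw [h0, h1, map_smul, Basis.repr_self, Basis.repr_self]
  simp

lemma discr_bas (hF : finrank ℚ F = 2) (β : F) (hrat : ∀ q : ℚ, (algebraMap ℚ F q) ≠ β) (d : ℤ) (hβ : β ^ 2 = (d : F)) :
    Algebra.discr ℚ (⇑(bas hF β hrat)) = 4 * d := by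
  rw [Algebra.discr_def, Matrix.det_fin_two]
  simp only [Algebra.traceMatrix_apply, Algebra.traceForm_apply]
  rw [bas_zero, bas_one, mul_one, one_mul, mul_one, ← sq, hβ, trace_zero hF β hrat d hβ]
  have h1 : Algebra.trace ℚ F 1 = 2 := by
    have := Algebra.trace_algebraMap (R := ℚ) (S := F) (1 : ℚ)
    rw [map_one, hF] at this
    simpa using this
  have h2 : Algebra.trace ℚ F (d : F) = 2 * d := by
    have := Algebra.trace_algebraMap (R := ℚ) (S := F) (d : ℚ)
    rw [hF] at this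
    simpa using this
  rw [h1, h2]
  ring

theorem discr_le (hF : finrank ℚ F = 2) (β : F) (hrat : ∀ q : ℚ, (algebraMap ℚ F q) ≠ β) (d : ℤ) (hd : d ≠ 0)
    (hβ : β ^ 2 = (d : F)) : |(discr F : ℝ)| ≤ 4 * |(d : ℝ)| := by
  classical
  have hcard : Fintype.card (Free.ChooseBasisIndex ℤ (𝓞 F)) = 2 := by
    have h1 := Module.finrank_eq_card_basis (integralBasis F)
    rw [← h1, hF]
  let e : Free.ChooseBasisIndex ℤ (𝓞 F) ≃ Fin 2 := Fintype.equivFinOfCardEq hcard
  obtain ⟨B, hB⟩ : ∃ B, B = (integralBasis F).reindex e := ⟨_, rfl⟩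
  have h1 : Algebra.discr ℚ (⇑B) = (discr F : ℚ) := by
    rw [hB, Basis.coe_reindex, NumberField.coe_discr]
    exact Algebra.discr_reindex ℚ (integralBasis F) e
  have hvm := B.toMatrix_map_vecMul (⇑(bas hF β hrat))
  have h2 : Algebra.discr ℚ (⇑(bas hF β hrat)) = (B.toMatrix (⇑(bas hF β hrat))).det ^ 2 * (discr F : ℚ) := by
    conv_lhs => rw [← hvm]
    rw [Algebra.discr_of_matrix_vecMul, h1]
  rw [discr_bas hF β hrat d hβ] at h2
  -- the entries are integers
  have hintβ : IsIntegral ℤ β := by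
    refine ⟨Polynomial.X ^ 2 - Polynomial.C d, Polynomial.monic_X_pow_sub_C d (by norm_num), ?_⟩
    rw [Polynomial.eval₂_sub, Polynomial.eval₂_X_pow, Polynomial.eval₂_C, hβ]
    simp
  have hent : ∀ i j, ∃ z : ℤ, B.toMatrix (⇑(bas hF β hrat)) i j = z := by
    intro i j
    rw [Basis.toMatrix_apply, hB]
    have hx : IsIntegral ℤ (bas hF β hrat j) := by
      fin_cases j
      · show IsIntegral ℤ (bas hF β hrat 0)
        rw [bas_zero]
        exact isIntegral_one
      · show IsIntegral ℤ (bas hF β hrat 1)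
        rw [bas_one]
        exact hintβ
    obtain ⟨y, hy⟩ : ∃ y : 𝓞 F, algebraMap (𝓞 F) F y = bas hF β hrat j := ⟨⟨_, hx⟩, rfl⟩
    rw [← hy]
    simp only [Basis.repr_reindex, Finsupp.mapDomain_equiv_apply]
    rw [integralBasis_repr_apply]
    exact ⟨_, rfl⟩
  choose z hz using hent
  obtain ⟨Z, hZ⟩ : ∃ Z : Matrix (Fin 2) (Fin 2) ℤ, Z = Matrix.of z := ⟨_, rfl⟩
  have h3 : (B.toMatrix (⇑(bas hF β hrat))).det = (Z.det : ℚ) := by
    rw [Matrix.det_fin_two, Matrix.det_fin_two, hZ]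
    simp only [Matrix.of_apply]
    rw [hz, hz, hz, hz]
    push_cast
    ring
  rw [h3] at h2
  have h4 : (4 * d : ℤ) = Z.det ^ 2 * discr F := by exact_mod_cast h2
  have h5 : Z.det ≠ 0 := by
    intro h
    rw [h] at h4
    have : (4 * d : ℤ) = 0 := by rw [h4]; ring
    omega
  have h6 : 1 ≤ Z.det ^ 2 := by
    have : 0 < Z.det ^ 2 := by positivity
    omega
  have h7 : |discr F| ≤ 4 * |d| := by
    have h8 : |(4 * d : ℤ)| = Z.det ^ 2 * |discr F| := by
      rw [h4, abs_mul, abs_of_nonneg (sq_nonneg _)]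
    rw [abs_mul] at h8
    have h9 : |(4 : ℤ)| = 4 := rfl
    rw [h9] at h8
    rw [h8]
    nlinarith [abs_nonneg (discr F)]
  exact_mod_cast h7

lemma adjoin_top (hF : finrank ℚ F = 2) (β : F) (hrat : ∀ q : ℚ, (algebraMap ℚ F q) ≠ β) : IntermediateField.adjoin ℚ {β} = ⊤ := by
  have h1 : finrank ℚ (IntermediateField.adjoin ℚ {β}) * finrank (IntermediateField.adjoin ℚ {β}) F = 2 := by
    rw [Module.finrank_mul_finrank, hF]
  have h2 : finrank ℚ (IntermediateField.adjoin ℚ {β}) ∣ 2 := ⟨_, h1.symm⟩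
  rcases (Nat.dvd_prime Nat.prime_two).1 h2 with h3 | h3
  · exfalso
    rw [IntermediateField.finrank_eq_one_iff] at h3
    have h4 : β ∈ (⊥ : IntermediateField ℚ F) := by
      rw [← h3]
      exact IntermediateField.mem_adjoin_simple_self ℚ β
    rw [IntermediateField.mem_bot] at h4
    obtain ⟨q, hq⟩ := h4
    exact hrat q hq
  · apply IntermediateField.eq_of_le_of_finrank_eq le_top
    rw [h3, IntermediateField.finrank_top', hF]

end Pool.Agent.Q93.LT
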