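import Pool.Agent.Q93.LT.Tor
import Pool.Agent.Q93.LT.QDisc

/-! Quadratic fields `ℚ(√m)` and `ℚ(√-m)`, where `m` arises from an arbitrary integer by changing a few digits: many primes with a
prime ideal of degree one. -/

set_option autoImplicit false

namespace Pool.Agent.Q93.LT

open Finset Filter Polynomial Pool.Agent.Q235.FD Topology
open scoped NumberField

/-- many primes with a periodic property of positive proportion -/
theorem many_of {L : Type} [Fintype L] [Nonempty L] (n : ℕ) {b : ℕ} (hb : 2 ≤ b) (A : ℕ) (T : ℕ → (L → ℕ) → Prop)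
    (hT : ∀ p m, T p m ↔ T p (fun i => m i % p)) (hlow : ∀ p, p.Prime → 4 * n ≤ p → 1 / 4 ≤ proportion p (T p)) :
    ForAlmostAll L b A (fun (_ : Unit) x m => (x : ℝ) / (16 * Real.log x) ≤ number (PX n x) (fun p => T p m)) := by
  classical
  obtain ⟨y₁, hy₁⟩ := eventually_atTop.1 (pi_lower.and (big n))
  refine forAlmostAll_of hb (show (0 : ℝ) < 1 / 4 by norm_num) (A₂ := 0 + 0) (fun _ : Unit => propData (theta n) (fun _ => (univ : Finset Unit))
    (by intro x hx; simp) (fun _ p m => T p m) (fun _ p m => hT p m)) (y₁ + 2) ?_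
  intro _ x m hx h
  obtain ⟨h1, h2⟩ := hy₁ x (by omega)
  have h3 := law_prop (theta n) _ _ _ _ h (PX n x) (by show PX n x ∈ ({PX n x} : Finset (Finset ℕ)); exact mem_singleton_self _) () (mem_univ _)
  have hx2 : (2 : ℝ) ≤ x := by exact_mod_cast (by omega : 2 ≤ x)
  have hx0 : (0 : ℝ) < x := by linarith
  obtain ⟨Sg, hSg⟩ : ∃ Sg, Sg = ∑ p ∈ PX n x, proportion p (T p) := ⟨_, rfl⟩
  rw [← hSg] at h3
  have h4 : ((PX n x).card : ℝ) / 4 ≤ Sg := by
    rw [hSg]
    have : ∀ p ∈ PX n x, (1 : ℝ) / 4 ≤ proportion p (T p) := by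
      intro p hp
      rw [mem_PX] at hp
      exact hlow p hp.1 hp.2.2
    have h6 := sum_le_sum this
    rw [sum_const, nsmul_eq_mul] at h6
    linarith
  have h5 : Sg ≤ x := by
    rw [hSg]
    have : ∀ p ∈ PX n x, proportion p (T p) ≤ (1 : ℝ) := fun p hp => proportion_le_one (mem_PX.1 hp).1 _
    have h6 := sum_le_sum this
    rw [sum_const, nsmul_eq_mul, mul_one] at h6
    exact h6.trans (card_PX_le n x)
  have h6 : Real.sqrt (max 1 Sg) * (x : ℝ) ^ (1 / 4 : ℝ) ≤ (x : ℝ) ^ (3 / 4 : ℝ) := by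
    have h7 : Real.sqrt (max 1 Sg) ≤ (x : ℝ) ^ (1 / 2 : ℝ) := by
      rw [← Real.sqrt_eq_rpow]
      exact Real.sqrt_le_sqrt (max_le (by linarith) h5)
    calc Real.sqrt (max 1 Sg) * (x : ℝ) ^ (1 / 4 : ℝ) ≤ (x : ℝ) ^ (1 / 2 : ℝ) * (x : ℝ) ^ (1 / 4 : ℝ) :=
          mul_le_mul_of_nonneg_right h7 (by positivity)
      _ = (x : ℝ) ^ (3 / 4 : ℝ) := by rw [← Real.rpow_add hx0]; norm_num
  have h7 := (abs_le.1 h3).1
  have h8 := card_PX n x
  have h9 : (x : ℝ) / (2 * Real.log x) = 8 * (x / (16 * Real.log x)) := by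
    have hlog : 0 < Real.log x := Real.log_pos (by linarith)
    field_simp
    norm_num
  rw [h9] at h1
  have h10 : (number (PX n x) (fun p => T p m) : ℝ) ≥ Sg - (x : ℝ) ^ (3 / 4 : ℝ) := by linarith
  linarith

/-- the coefficients of `(X + m) ^ 2 - m` resp. `X ^ 2 + m` -/
def vec (σ : Bool) (m : ℕ) : Fin 2 → ℕ := if σ then ![m * (m - 1), 2 * m] else ![m, 0]

/-- the property of the prime `p` -/
def Sq (σ : Bool) (p : ℕ) (m : Unit → ℕ) : Prop := Rt p (vec σ (m ()))

lemma poly_true (p m : ℕ) : poly p (vec true m) = (X + C (m : ZMod p)) ^ 2 - C (m : ZMod p) := by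
  unfold poly vec
  simp only [Fin.sum_univ_two, if_true, Matrix.cons_val_zero, Matrix.cons_val_one, Fin.val_zero, Fin.val_one, pow_zero, pow_one,
    mul_one]
  have h1 : ((m * (m - 1) : ℕ) : ZMod p) = (m : ZMod p) * ((m : ZMod p) - 1) := by
    rcases Nat.eq_zero_or_pos m with rfl | hm
    · simp
    · rw [Nat.cast_mul, Nat.cast_sub hm, Nat.cast_one]
  rw [h1]
  push_cast
  simp only [C_mul, C_sub, C_1]
  have h2 : C (2 : ZMod p) = 2 := rfl
  rw [h2]
  ring

lemma poly_false (p m : ℕ) : poly p (vec false m) = X ^ 2 + C (m : ZMod p) := by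
  unfold poly vec
  simp [Fin.sum_univ_two]

lemma poly_vec_mod (σ : Bool) (p m : ℕ) : poly p (vec σ (m % p)) = poly p (vec σ m) := by
  cases σ
  · rw [poly_false, poly_false, ZMod.natCast_mod]
  · rw [poly_true, poly_true, ZMod.natCast_mod]

lemma Sq_mod (σ : Bool) (p : ℕ) (m : Unit → ℕ) : Sq σ p m ↔ Sq σ p (fun i => m i % p) := by
  unfold Sq Rt
  rw [poly_vec_mod]

lemma sep_two {p : ℕ} [Fact p.Prime] (u v : ZMod p) (h : u ≠ v) : ((X - C u) * (X - C v)).Separable :=
  (separable_X_sub_C).mul separable_X_sub_C (isCoprime_X_sub_C_of_isUnit_sub (sub_ne_zero.2 h).isUnit)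

/-- the residue for which the primes splits -/
def res (σ : Bool) (p : ℕ) (j : ℕ) : ℕ := (if σ then ((j : ZMod p) ^ 2) else -((j : ZMod p) ^ 2)).val

lemma Sq_res (σ : Bool) {p : ℕ} [Fact p.Prime] (hp : 2 < p) {j : ℕ} (hj1 : 1 ≤ j) (hj2 : 2 * j < p) : Sq σ p (fun _ => res σ p j) := by
  have hj0 : (j : ZMod p) ≠ 0 := by
    intro h
    rw [ZMod.natCast_eq_zero_iff] at h
    exact absurd (Nat.le_of_dvd (by omega) h) (by omega)
  have h20 : ((2 * j : ℕ) : ZMod p) ≠ 0 := by
    intro h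
    rw [ZMod.natCast_eq_zero_iff] at h
    exact absurd (Nat.le_of_dvd (by omega) h) (by omega)
  push_cast at h20
  unfold Sq Rt res
  cases σ
  · simp only [Bool.false_eq_true, if_false]
    rw [poly_false, ZMod.natCast_val, ZMod.cast_id]
    have e : (X ^ 2 + C (-((j : ZMod p) ^ 2)) : (ZMod p)[X]) = (X - C (j : ZMod p)) * (X - C (-(j : ZMod p))) := by
      simp only [C_neg, C_pow]
      ring
    rw [e]
    refine ⟨sep_two _ _ ?_, (j : ZMod p), by simp⟩
    intro h
    apply h20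
    linear_combination h
  · simp only [if_true]
    rw [poly_true, ZMod.natCast_val, ZMod.cast_id]
    have e : ((X + C ((j : ZMod p) ^ 2)) ^ 2 - C ((j : ZMod p) ^ 2) : (ZMod p)[X]) =
        (X - C ((j : ZMod p) - (j : ZMod p) ^ 2)) * (X - C (-(j : ZMod p) - (j : ZMod p) ^ 2)) := by
      simp only [C_neg, C_pow, C_sub]
      ring
    rw [e]
    refine ⟨sep_two _ _ ?_, (j : ZMod p) - (j : ZMod p) ^ 2, by simp⟩
    intro h
    apply h20
    linear_combination h

lemma prop_Sq (σ : Bool) (p : ℕ) (hp : p.Prime) (h8 : 4 * 2 ≤ p) : 1 / 4 ≤ proportion p (Sq σ p) := by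
  classical
  have : Fact p.Prime := ⟨hp⟩
  have hp0 : (0 : ℝ) < p := by exact_mod_cast hp.pos
  unfold proportion
  rw [Fintype.card_unit, pow_one, le_div_iff₀ hp0]
  have h1 : ((Icc 1 ((p - 1) / 2)).image (fun j => (fun _ : Unit => res σ p j))) ⊆ ((Fintype.piFinset (fun _ : Unit => range p)).filter (Sq σ p)) := by
    intro m hm
    rw [mem_image] at hm
    obtain ⟨j, hj, rfl⟩ := hm
    rw [mem_Icc] at hj
    rw [mem_filter, Fintype.mem_piFinset]
    refine ⟨fun _ => ?_, Sq_res σ (by omega) hj.1 (by omega)⟩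
    rw [mem_range]
    exact ZMod.val_lt _
  have h2 : ((Icc 1 ((p - 1) / 2)).image (fun j => (fun _ : Unit => res σ p j))).card = (p - 1) / 2 := by
    rw [card_image_of_injOn, Nat.card_Icc]
    · omega
    · intro i hi j hj hij
      rw [mem_coe, mem_Icc] at hi hj
      have h3 := congrFun hij ()
      simp only at h3
      have h4 : (i : ZMod p) ^ 2 = (j : ZMod p) ^ 2 := by
        unfold res at h3
        have h5 := ZMod.val_injective p h3
        cases σ
        · simpa using h5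
        · simpa using h5
      have h5 : ((i : ZMod p) - j) * ((i : ZMod p) + j) = 0 := by linear_combination h4
      rcases mul_eq_zero.1 h5 with h6 | h6
      · have h7 : ((i : ℕ) : ZMod p) = ((j : ℕ) : ZMod p) := by linear_combination h6
        rw [ZMod.natCast_eq_natCast_iff'] at h7
        rwa [Nat.mod_eq_of_lt (by omega), Nat.mod_eq_of_lt (by omega)] at h7
      · exfalso
        have h7 : ((i + j : ℕ) : ZMod p) = 0 := by push_cast; exact h6
        rw [ZMod.natCast_eq_zero_iff] at h7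
        exact absurd (Nat.le_of_dvd (by omega) h7) (by omega)
  have h3 := card_le_card h1
  rw [h2] at h3
  have h4 : (p : ℝ) ≤ 4 * (((p - 1) / 2 : ℕ) : ℝ) := by
    have : p ≤ 4 * ((p - 1) / 2) := by omega
    exact_mod_cast this
  have h5 : (((p - 1) / 2 : ℕ) : ℝ) ≤ (((Fintype.piFinset (fun _ : Unit => range p)).filter (Sq σ p)).card : ℝ) := by exact_mod_cast h3
  have h6 : (1 : ℝ) / 4 * p ≤ (((Fintype.piFinset (fun _ : Unit => range p)).filter (Sq σ p)).card : ℝ) := by linarith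
  refine le_trans h6 (le_of_eq ?_)
  congr
  exact Subsingleton.elim _ _

theorem many_quad (σ : Bool) {b : ℕ} (hb : 2 ≤ b) (A : ℕ) :
    ForAlmostAll Unit b A (fun (_ : Unit) x m => (x : ℝ) / (16 * Real.log x) ≤ number (PX 2 x) (fun p => Sq σ p m)) :=
  many_of 2 hb A (Sq σ) (Sq_mod σ) (prop_Sq σ)

end Pool.Agent.Q93.LT
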