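import Pool.Agent.Q235.FD.Hyp3

/-! The proportion of the monic polynomials of degree `n` modulo `p` which are separable and have a root. -/

set_option autoImplicit false

namespace Pool.Agent.Q93.LT

open Finset Polynomial Pool.Agent.Q235.FD

section

variable {n p : ℕ} [Fact p.Prime]

open Classical in
/-- the indicator function of zero -/
noncomputable def iz (c : ZMod p) : ℝ := if c = 0 then 1 else 0

lemma sum_iz : ∑ c : ZMod p, iz c = 1 := by
  unfold iz
  rw [sum_ite_eq', if_pos (mem_univ _)]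

/-- the number of the roots -/
noncomputable def nr (v : Fin n → ZMod p) : ℝ := ∑ a : ZMod p, iz (ev v a)

lemma pt (B : Finset (ZMod p)) (hB : B.card ≤ n) : ∑ v : Fin n → ZMod p, ∏ b ∈ B, iz (ev v b) = (p : ℝ) ^ n * (1 / p) ^ B.card := by
  rw [indep B hB (fun _ => iz)]
  congr 1
  rw [sum_iz, prod_const]

lemma sum_nr (hn : 1 ≤ n) : ∑ v : Fin n → ZMod p, nr v = (p : ℝ) ^ n := by
  have hp0 : (p : ℝ) ≠ 0 := by exact_mod_cast (Fact.out : p.Prime).ne_zero
  unfold nr
  rw [sum_comm]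
  have h1 : ∀ a : ZMod p, ∑ v : Fin n → ZMod p, iz (ev v a) = (p : ℝ) ^ n * (1 / p) := by
    intro a
    have := pt (n := n) ({a} : Finset (ZMod p)) (by simpa using hn)
    simpa using this
  rw [sum_congr rfl fun a _ => h1 a, sum_const, card_univ, ZMod.card, nsmul_eq_mul]
  field_simp

lemma sum_nr_sq (hn : 2 ≤ n) : ∑ v : Fin n → ZMod p, nr v ^ 2 ≤ 2 * (p : ℝ) ^ n := by
  classical
  have hp0 : (0 : ℝ) < p := by exact_mod_cast (Fact.out : p.Prime).pos
  have hp1 : (1 : ℝ) ≤ p := by exact_mod_cast (Fact.out : p.Prime).one_lt.le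
  unfold nr
  simp_rw [sq, sum_mul_sum]
  rw [sum_comm]
  have h1 : ∀ a : ZMod p, ∑ v : Fin n → ZMod p, ∑ b : ZMod p, iz (ev v a) * iz (ev v b) ≤ 2 * (p : ℝ) ^ n * (1 / p) := by
    intro a
    rw [sum_comm, ← add_sum_erase _ _ (mem_univ a)]
    have h2 : ∑ v : Fin n → ZMod p, iz (ev v a) * iz (ev v a) = (p : ℝ) ^ n * (1 / p) := by
      have h3 : ∀ c : ZMod p, iz c * iz c = iz c := by
        intro c
        unfold iz
        split_ifs <;> simp
      rw [sum_congr rfl fun v _ => h3 _]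
      have := pt (n := n) ({a} : Finset (ZMod p)) (by rw [card_singleton]; omega)
      simpa using this
    have h4 : ∀ b ∈ (univ : Finset (ZMod p)).erase a, ∑ v : Fin n → ZMod p, iz (ev v a) * iz (ev v b) = (p : ℝ) ^ n * (1 / p) ^ 2 := by
      intro b hb
      have hab : a ≠ b := fun h => (mem_erase.1 hb).1 h.symm
      have := pt (n := n) ({a, b} : Finset (ZMod p)) (by rw [card_pair hab]; exact hn)
      rw [card_pair hab] at this
      rw [← this]
      refine sum_congr rfl fun v _ => ?_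
      rw [prod_pair hab]
    rw [h2, sum_congr rfl h4, sum_const, card_erase_of_mem (mem_univ _), card_univ, ZMod.card, nsmul_eq_mul,
      Nat.cast_sub (Fact.out : p.Prime).one_le]
    push_cast
    have h5 : ((p : ℝ) - 1) * ((p : ℝ) ^ n * (1 / p) ^ 2) = (p : ℝ) ^ n * (1 / p) * (((p : ℝ) - 1) / p) := by field_simp
    rw [h5]
    have h6 : ((p : ℝ) - 1) / p ≤ 1 := by rw [div_le_one hp0]; linarith
    have h7 : 0 ≤ (p : ℝ) ^ n * (1 / p) := by positivity
    nlinarith
  refine (sum_le_sum fun a _ => h1 a).trans (le_of_eq ?_)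
  rw [sum_const, card_univ, ZMod.card, nsmul_eq_mul]
  field_simp

open Classical in
lemma root_count (hn : 2 ≤ n) : (p : ℝ) ^ n / 2 ≤ ∑ v : Fin n → ZMod p, (if ∃ a, ev v a = 0 then (1 : ℝ) else 0) := by
  have hp0 : (0 : ℝ) < p := by exact_mod_cast (Fact.out : p.Prime).pos
  have h1 : ∀ v : Fin n → ZMod p, nr v * (if ∃ a, ev v a = 0 then (1 : ℝ) else 0) = nr v := by
    intro v
    by_cases h : ∃ a, ev v a = 0
    · rw [if_pos h, mul_one]
    · rw [if_neg h, mul_zero]
      push Not at h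
      unfold nr iz
      exact (sum_eq_zero fun a _ => if_neg (h a)).symm
  have h2 := sum_mul_sq_le_sq_mul_sq (univ : Finset (Fin n → ZMod p)) (fun v => nr v) (fun v => if ∃ a, ev v a = 0 then (1 : ℝ) else 0)
  rw [sum_congr rfl fun v _ => h1 v, sum_nr (by omega)] at h2
  have h3 : ∀ v : Fin n → ZMod p, (if ∃ a, ev v a = 0 then (1 : ℝ) else 0) ^ 2 = if ∃ a, ev v a = 0 then (1 : ℝ) else 0 := by
    intro v
    split_ifs <;> simp
  rw [sum_congr rfl fun v _ => h3 v] at h2
  obtain ⟨S, hS⟩ : ∃ S, S = ∑ v : Fin n → ZMod p, (if ∃ a, ev v a = 0 then (1 : ℝ) else 0) := ⟨_, rfl⟩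
  rw [← hS] at h2 ⊢
  have hS0 : 0 ≤ S := by rw [hS]; exact sum_nonneg fun v _ => by split_ifs <;> norm_num
  have h4 := h2.trans (mul_le_mul_of_nonneg_right (sum_nr_sq hn) hS0)
  have hpn : (0 : ℝ) < (p : ℝ) ^ n := by positivity
  rw [div_le_iff₀ (by norm_num)]
  have h5 : (p : ℝ) ^ n * (p : ℝ) ^ n ≤ (p : ℝ) ^ n * (S * 2) := by nlinarith
  exact le_of_mul_le_mul_left h5 hpn

end

/-- the polynomial is separable and has a root modulo `p` -/
def Rt {n : ℕ} (p : ℕ) (m : Fin n → ℕ) : Prop := (poly p m).Separable ∧ ∃ a : ZMod p, (poly p m).eval a = 0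

lemma Rt_mod {n : ℕ} (p : ℕ) (m : Fin n → ℕ) : Rt p m ↔ Rt p (fun i => m i % p) := by
  unfold Rt
  rw [poly_mod]

theorem prop_lower {n p : ℕ} (hn : 2 ≤ n) (hp : p.Prime) : 1 / 2 - (n : ℝ) / p ≤ proportion p (Rt (n := n) p) := by
  classical
  have : Fact p.Prime := ⟨hp⟩
  have hp0 : (0 : ℝ) < p := by exact_mod_cast hp.pos
  have hpn : (0 : ℝ) < (p : ℝ) ^ n := by positivity
  rw [← avg_ind]
  have h1 : ∀ m : Fin n → ℕ, (fun v : Fin n → ZMod p => (if ∃ a, ev v a = 0 then (1 : ℝ) else 0) - (if (pol v).Separable then (0 : ℝ) else 1))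
      (fun l => ((m l : ℕ) : ZMod p)) ≤ if Rt p m then (1 : ℝ) else 0 := by
    intro m
    beta_reduce
    have e1 : (∃ a, ev (fun l => ((m l : ℕ) : ZMod p)) a = 0) ↔ ∃ a : ZMod p, (poly p m).eval a = 0 :=
      exists_congr fun a => by rw [eval_poly]
    have e2 : pol (fun l => ((m l : ℕ) : ZMod p)) = poly p m := rfl
    rw [e2]
    by_cases h : Rt p m
    · rw [if_pos h]
      have : (if ∃ a, ev (fun l => ((m l : ℕ) : ZMod p)) a = 0 then (1 : ℝ) else 0) ≤ 1 := by split_ifs <;> norm_num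
      have : (0 : ℝ) ≤ (if (poly p m).Separable then (0 : ℝ) else 1) := by split_ifs <;> norm_num
      linarith
    · rw [if_neg h]
      by_cases h2 : (poly p m).Separable
      · rw [if_pos h2, if_neg (fun h3 => h ⟨h2, e1.1 h3⟩), sub_zero]
      · rw [if_neg h2]
        have : (if ∃ a, ev (fun l => ((m l : ℕ) : ZMod p)) a = 0 then (1 : ℝ) else 0) ≤ 1 := by split_ifs <;> norm_num
        linarith
  refine le_trans ?_ (avg_mono h1)
  rw [avg_zmod (fun v : Fin n → ZMod p => (if ∃ a, ev v a = 0 then (1 : ℝ) else 0) - (if (pol v).Separable then (0 : ℝ) else 1)), Fintype.card_fin,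
    sum_sub_distrib, sub_div]
  have h2 : 1 / 2 ≤ (∑ v : Fin n → ZMod p, (if ∃ a, ev v a = 0 then (1 : ℝ) else 0)) / (p : ℝ) ^ n := by
    rw [le_div_iff₀ hpn]
    have := root_count (p := p) hn
    linarith
  have h3 : (∑ v : Fin n → ZMod p, (if (pol v).Separable then (0 : ℝ) else 1)) / (p : ℝ) ^ n ≤ (n : ℝ) / p := by
    have h4 : ∑ v : Fin n → ZMod p, (if (pol v).Separable then (0 : ℝ) else 1) = ((univ.filter (fun v : Fin n → ZMod p => ¬ (pol v).Separable)).card : ℝ) := by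
      rw [card_filter]
      push_cast
      refine sum_congr rfl fun v _ => ?_
      split_ifs <;> simp_all
    rw [h4]
    refine le_trans (le_of_eq ?_) (sep_count (D := n) (p := p) (by omega))
    congr!
  linarith

end Pool.Agent.Q93.LT
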