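import Pool.Agent.Q93.LT.Many
import Pool.Agent.Q93.LT.Disc
import Pool.Agent.Results.MP_695920_nt.LogSavingAllDegrees

/-! Torsion in the class groups of the fields generated by the roots of polynomials with few-digit coefficients. -/

set_option autoImplicit false

namespace Pool.Agent.Q93.LT

open Finset Filter Polynomial Pool.Agent.Q235.FD Topology
open scoped NumberField

/-- an elementary bound -/
lemma log_pow (n : ℕ) (hn : 1 ≤ n) {η : ℝ} (hη : 0 < η) {t : ℝ} (ht : 1 ≤ t) : (Real.log t) ^ n ≤ ((n : ℝ) / η) ^ n * t ^ η := by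
  have hn0 : (0 : ℝ) < n := by exact_mod_cast (by omega : 0 < n)
  have h1 := Real.log_le_rpow_div (by linarith : (0 : ℝ) ≤ t) (show 0 < η / n by positivity)
  have h0 : 0 ≤ Real.log t := Real.log_nonneg ht
  calc (Real.log t) ^ n ≤ (t ^ (η / n) / (η / n)) ^ n := pow_le_pow_left₀ h0 h1 n
    _ = ((n : ℝ) / η) ^ n * (t ^ (η / n)) ^ n := by
        rw [← mul_pow]
        congr 1
        field_simp
    _ = ((n : ℝ) / η) ^ n * t ^ η := by
        congr 1
        rw [← Real.rpow_natCast, ← Real.rpow_mul (by linarith)]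
        congr 1
        field_simp

/-- the polynomial over the integers -/
noncomputable def gz {n : ℕ} (m : Fin n → ℕ) : ℤ[X] := X ^ n + ∑ i : Fin n, C ((m i : ℕ) : ℤ) * X ^ (i : ℕ)

lemma gz_low {n : ℕ} (m : Fin n → ℕ) : (∑ i : Fin n, C ((m i : ℕ) : ℤ) * X ^ (i : ℕ)).degree < ((n : ℕ) : WithBot ℕ) :=
  degree_sum_fin_lt fun i => ((m i : ℕ) : ℤ)

lemma gz_monic {n : ℕ} (m : Fin n → ℕ) : (gz m).Monic := monic_X_pow_add (gz_low m)

lemma gz_natDegree {n : ℕ} (m : Fin n → ℕ) : (gz m).natDegree = n := by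
  unfold gz
  rw [natDegree_eq_of_degree_eq_some]
  rw [degree_add_eq_left_of_degree_lt]
  · rw [degree_X_pow]
  · rw [degree_X_pow]
    exact gz_low m

lemma gz_map {n : ℕ} (m : Fin n → ℕ) (p : ℕ) : (gz m).map (Int.castRingHom (ZMod p)) = poly p m := by
  unfold gz poly
  rw [Polynomial.map_add, Polynomial.map_pow, Polynomial.map_X, Polynomial.map_sum]
  congr 1
  refine sum_congr rfl fun i _ => ?_
  rw [Polynomial.map_mul, Polynomial.map_C, Polynomial.map_pow, Polynomial.map_X]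
  congr 2
  simp

/-- many primes give a small torsion subgroup -/
theorem torsion_le (n : ℕ) (hn : 2 ≤ n) {ε : ℝ} (hε : 0 < ε) (hε1 : ε ≤ 1) : ∃ C : ℝ, 0 < C ∧ ∃ x₀ : ℕ, ∀ x : ℕ, x₀ ≤ x →
    ∀ m : Fin n → ℕ, (x : ℝ) / (16 * Real.log x) ≤ number (PX n x) (fun p => Rt p m) →
    ∀ l : ℕ, 1 ≤ l → ∀ (K : Type) [Field K] [NumberField K], Module.finrank ℚ K = n → ∀ α : K,
    IntermediateField.adjoin ℚ {α} = ⊤ → α ^ n + ∑ i : Fin n, (m i : K) * α ^ (i : ℕ) = 0 →
    (2 * (150 * x) ^ l) ^ (n * (n - 1)) < (NumberField.discr K).natAbs →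
    (Nat.card {c : ClassGroup (𝓞 K) // c ^ l = 1} : ℝ) ≤ C * l ^ n * Real.sqrt |(NumberField.discr K : ℝ)| / (x : ℝ) ^ (1 - ε) := by
  classical
  obtain ⟨C, hC0, hC⟩ := Pool.Agent.Results.MP_695920_nt.LogSavingAllDegrees.result n hn
  obtain ⟨c1, hc1⟩ : ∃ c1 : ℝ, c1 = ((n : ℝ) / (ε / 2)) ^ n * 2 := ⟨_, rfl⟩
  have hn0 : (0 : ℝ) < n := by exact_mod_cast (by omega : 0 < n)
  have hc10 : 0 < c1 := by rw [hc1]; positivity
  refine ⟨C * ((n : ℝ) ^ n * 3) * c1 * (32 / ε), by positivity, 3, ?_⟩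
  intro x hx m hnum l hl K _ _ hK α hα h0 hD
  obtain ⟨D, hDd⟩ : ∃ D : ℝ, D = |(NumberField.discr K : ℝ)| := ⟨_, rfl⟩
  have hDnat : D = ((NumberField.discr K).natAbs : ℝ) := by
    rw [hDd, Nat.cast_natAbs]
    push_cast
    rfl
  have hD3 : 3 ≤ D := by
    have := NumberField.abs_discr_gt_two (K := K) (by rw [hK]; omega)
    rw [Int.abs_eq_natAbs] at this
    have h2 : 2 < (NumberField.discr K).natAbs := by exact_mod_cast this
    rw [hDnat]
    exact_mod_cast h2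
  obtain ⟨-, -, h1⟩ := hC l hl K hK
  rw [← hDd] at h1 ⊢
  obtain ⟨k, hk⟩ : ∃ k, k = {p ∈ Pool.Agent.Results.MP_695920_nt.LogSavingAllDegrees.smallNorms K n l | ¬ p ∣ (NumberField.discr K).natAbs}.ncard := ⟨_, rfl⟩
  rw [← hk] at h1
  have hxr : (3 : ℝ) ≤ x := by exact_mod_cast hx
  have hx0 : (0 : ℝ) < x := by linarith
  have hlogx : 0 < Real.log x := Real.log_pos (by linarith)
  -- the number of the primes
  have hkg : number (PX n x) (fun p => Rt p m) ≤ k := by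
    rw [hk]
    have hfin : {p ∈ Pool.Agent.Results.MP_695920_nt.LogSavingAllDegrees.smallNorms K n l | ¬ p ∣ (NumberField.discr K).natAbs}.Finite := by
      refine Set.Finite.subset (Set.finite_Iic (NumberField.discr K).natAbs) ?_
      intro p hp
      have h2 := Pool.Agent.TH847.LG.le_Phi hn hl p
      unfold Pool.Agent.TH847.LG.Phi at h2
      have h3 := hp.1.2.1
      rw [Set.mem_Iic]
      omega
    have h2 : ((PX n x).filter (fun p => Rt p m) : Set ℕ) ⊆ {p ∈ Pool.Agent.Results.MP_695920_nt.LogSavingAllDegrees.smallNorms K n l | ¬ p ∣ (NumberField.discr K).natAbs} := by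
      intro p hp
      rw [mem_coe, mem_filter, mem_PX] at hp
      obtain ⟨⟨hp1, hp2, _⟩, hp3, a, ha⟩ := hp
      have hroot : aeval α (gz m) = 0 := by
        rw [← h0]
        unfold gz
        simp
      have h3 := norm_and_unram (gz m) (gz_monic m) (by rw [gz_natDegree, hK]) α hα hroot p hp1 (by rw [gz_map]; exact hp3) a
        (by rw [gz_map]; exact ha)
      refine ⟨⟨hp1, lt_of_le_of_lt ?_ hD, h3.1⟩, h3.2⟩
      exact Nat.pow_le_pow_left (Nat.mul_le_mul_left _ (Nat.pow_le_pow_left (Nat.mul_le_mul_left _ hp2) _)) _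
    have h3 := Set.ncard_le_ncard h2 hfin
    rw [Set.ncard_coe_finset] at h3
    unfold number
    exact h3
  have hkr : (x : ℝ) / (16 * Real.log x) ≤ k := hnum.trans (by exact_mod_cast hkg)
  have hk0 : (0 : ℝ) ≤ k := Nat.cast_nonneg k
  -- the factor with the discriminant
  have hL : (Real.log (Real.log D + 2)) ^ n ≤ (n : ℝ) ^ n * 3 * Real.log D := by
    have hlogD : 1 ≤ Real.log D := by
      rw [Real.le_log_iff_exp_le (by linarith)]
      have := Real.exp_one_lt_d9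
      linarith
    have h2 := log_pow n (by omega) (show (0 : ℝ) < 1 by norm_num) (t := Real.log D + 2) (by linarith)
    rw [div_one, Real.rpow_one] at h2
    refine h2.trans ?_
    rw [mul_assoc]
    exact mul_le_mul_of_nonneg_left (by linarith) (by positivity)
  have hlogD : 0 < Real.log D := Real.log_pos (by linarith)
  -- the factor with the primes
  have hF : (Real.log ((k : ℝ) + 2)) ^ n / (k + 1) ≤ c1 * (32 / ε) / (x : ℝ) ^ (1 - ε) := by
    have h2 := log_pow n (by omega) (show 0 < ε / 2 by positivity) (t := (k : ℝ) + 2) (by linarith)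
    have h3 : ((k : ℝ) + 2) ^ (ε / 2) ≤ 2 * ((k : ℝ) + 1) ^ (ε / 2) := by
      have h4 : ((k : ℝ) + 2) ^ (ε / 2) ≤ (2 * ((k : ℝ) + 1)) ^ (ε / 2) := Real.rpow_le_rpow (by positivity) (by linarith) (by positivity)
      rw [Real.mul_rpow (by norm_num) (by positivity)] at h4
      refine h4.trans (mul_le_mul_of_nonneg_right ?_ (by positivity))
      calc (2 : ℝ) ^ (ε / 2) ≤ 2 ^ (1 : ℝ) := Real.rpow_le_rpow_of_exponent_le (by norm_num) (by linarith)
        _ = 2 := Real.rpow_one 2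
    have h5 : (Real.log ((k : ℝ) + 2)) ^ n ≤ c1 * ((k : ℝ) + 1) ^ (ε / 2) := by
      refine h2.trans ?_
      rw [hc1, mul_assoc]
      exact mul_le_mul_of_nonneg_left h3 (by positivity)
    -- x^(1-ε) ≤ (32/ε) (k+1)^(1-ε/2)
    have h6 : Real.log x ≤ (x : ℝ) ^ (ε / 2) / (ε / 2) := Real.log_le_rpow_div hx0.le (by positivity)
    have h7 : ε / 32 * (x : ℝ) ^ (1 - ε / 2) ≤ (k : ℝ) + 1 := by
      have h8 : ε / 32 * (x : ℝ) ^ (1 - ε / 2) ≤ x / (16 * Real.log x) := by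
        rw [le_div_iff₀ (by positivity)]
        have h9 : (x : ℝ) ^ (1 - ε / 2) * (x : ℝ) ^ (ε / 2) = x := by
          rw [← Real.rpow_add hx0]
          norm_num
        calc ε / 32 * (x : ℝ) ^ (1 - ε / 2) * (16 * Real.log x) ≤ ε / 32 * (x : ℝ) ^ (1 - ε / 2) * (16 * ((x : ℝ) ^ (ε / 2) / (ε / 2))) := by
              gcongr
          _ = (x : ℝ) ^ (1 - ε / 2) * (x : ℝ) ^ (ε / 2) := by field_simp; ring
          _ = x := h9
      linarith
    have hu : (1 : ℝ) - ε / 2 ≤ 1 := by linarith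
    have hu0 : (0 : ℝ) < 1 - ε / 2 := by linarith
    have h8 : ε / 32 * (x : ℝ) ^ (1 - ε) ≤ ((k : ℝ) + 1) ^ (1 - ε / 2) := by
      have h9 := Real.rpow_le_rpow (by positivity) h7 hu0.le
      rw [Real.mul_rpow (by positivity) (by positivity), ← Real.rpow_mul hx0.le] at h9
      refine le_trans (mul_le_mul ?_ ?_ (by positivity) (by positivity)) h9
      · calc ε / 32 = (ε / 32) ^ (1 : ℝ) := (Real.rpow_one _).symm
          _ ≤ (ε / 32) ^ (1 - ε / 2) := Real.rpow_le_rpow_of_exponent_ge (by positivity) (by linarith) hu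
      · exact Real.rpow_le_rpow_of_exponent_le (by linarith) (by nlinarith [sq_nonneg ε])
    have hk1 : (0 : ℝ) < (k : ℝ) + 1 := by positivity
    have hsplit : ((k : ℝ) + 1) ^ (ε / 2) * ((k : ℝ) + 1) ^ (1 - ε / 2) = (k : ℝ) + 1 := by
      rw [← Real.rpow_add hk1]
      norm_num
    rw [div_le_div_iff₀ hk1 (by positivity)]
    have hxp : 0 ≤ (x : ℝ) ^ (1 - ε) := by positivity
    have h10 : (x : ℝ) ^ (1 - ε) ≤ (32 / ε) * ((k : ℝ) + 1) ^ (1 - ε / 2) := by
      have h11 := mul_le_mul_of_nonneg_left h8 (show 0 ≤ 32 / ε by positivity)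
      calc (x : ℝ) ^ (1 - ε) = (32 / ε) * (ε / 32 * (x : ℝ) ^ (1 - ε)) := by field_simp
        _ ≤ _ := h11
    calc (Real.log ((k : ℝ) + 2)) ^ n * (x : ℝ) ^ (1 - ε) ≤ (c1 * ((k : ℝ) + 1) ^ (ε / 2)) * ((32 / ε) * ((k : ℝ) + 1) ^ (1 - ε / 2)) :=
          mul_le_mul h5 h10 hxp (by positivity)
      _ = c1 * (32 / ε) * (((k : ℝ) + 1) ^ (ε / 2) * ((k : ℝ) + 1) ^ (1 - ε / 2)) := by ring
      _ = c1 * (32 / ε) * ((k : ℝ) + 1) := by rw [hsplit]
  have hsq : 0 ≤ Real.sqrt D := Real.sqrt_nonneg D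
  have hlr : (0 : ℝ) ≤ (l : ℝ) ^ n := by positivity
  have hF0 : 0 ≤ (Real.log ((k : ℝ) + 2)) ^ n / (k + 1) := by
    have : 0 ≤ Real.log ((k : ℝ) + 2) := Real.log_nonneg (by linarith)
    positivity
  have hL0 : 0 ≤ (Real.log (Real.log D + 2)) ^ n := by
    have : 0 ≤ Real.log (Real.log D + 2) := Real.log_nonneg (by linarith)
    positivity
  refine h1.trans ?_
  calc C * (l : ℝ) ^ n * (Real.log (Real.log D + 2)) ^ n * ((Real.log ((k : ℝ) + 2)) ^ n / (k + 1)) * (Real.sqrt D / Real.log D)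
      ≤ C * (l : ℝ) ^ n * ((n : ℝ) ^ n * 3 * Real.log D) * (c1 * (32 / ε) / (x : ℝ) ^ (1 - ε)) * (Real.sqrt D / Real.log D) := by
        gcongr
    _ = C * ((n : ℝ) ^ n * 3) * c1 * (32 / ε) * (l : ℝ) ^ n * Real.sqrt D / (x : ℝ) ^ (1 - ε) := by
        field_simp

end Pool.Agent.Q93.LT
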